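import Pool.Agent.MP_3ce0a0_al.H79.SpecN

/-
Transvections act unipotently on modules of degree at most one.
-/

namespace Pool.Agent.MP_3ce0a0_al.H19

open Equiv Pool.Agent.MP_3ce0a0_al.H79

section Lin
variable {Z : Type} [AddCommGroup Z] [Module ℂ Z]

/-- a commuting family has a joint eigenvector in every nonzero invariant subspace. -/
theorem joint [FiniteDimensional ℂ Z] {κ : Type} [Fintype κ] (f : κ → Module.End ℂ Z)
    (hc : ∀ i j, Commute (f i) (f j)) (W : Submodule ℂ Z) (hW : W ≠ ⊥)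
    (hinv : ∀ i, ∀ v ∈ W, f i v ∈ W) :
    ∃ v ∈ W, v ≠ 0 ∧ ∃ χ : κ → ℂ, ∀ i, f i v = χ i • v := by
  classical
  have key : ∀ s : Finset κ, ∃ W' : Submodule ℂ Z, W' ≤ W ∧ W' ≠ ⊥ ∧ (∀ i, ∀ v ∈ W', f i v ∈ W') ∧
      ∀ i ∈ s, ∃ c : ℂ, ∀ v ∈ W', f i v = c • v := by
    intro s
    induction s using Finset.induction_on with
    | empty => exact ⟨W, le_rfl, hW, hinv, by simp⟩
    | insert j s _ ih =>
      obtain ⟨W', h1, h2, h3, h4⟩ := ih
      have : Nontrivial W' := Submodule.nontrivial_iff_ne_bot.mpr h2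
      obtain ⟨c, hc'⟩ := Module.End.exists_eigenvalue ((f j).restrict (h3 j) : Module.End ℂ W')
      obtain ⟨x, hx⟩ := hc'.exists_hasEigenvector
      have hx1 : f j x = c • (x : Z) := by
        have := congrArg Subtype.val hx.apply_eq_smul
        simpa using this
      refine ⟨W' ⊓ (f j).eigenspace c, inf_le_left.trans h1, ?_, ?_, ?_⟩
      · intro h
        have hx2 : (x : Z) ∈ W' ⊓ (f j).eigenspace c :=
          ⟨x.2, Module.End.mem_eigenspace_iff.mpr hx1⟩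
        rw [h, Submodule.mem_bot] at hx2
        exact hx.2 (Subtype.ext hx2)
      · intro i v hv
        refine ⟨h3 i v hv.1, Module.End.mem_eigenspace_iff.mpr ?_⟩
        have h5 : f j v = c • v := Module.End.mem_eigenspace_iff.mp hv.2
        have h6 := congrArg (fun g : Module.End ℂ Z => g v) (hc j i).eq
        simp only [Module.End.mul_apply] at h6
        rw [h6, h5, map_smul]
      · intro i hi
        rcases Finset.mem_insert.mp hi with rfl | hi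
        · exact ⟨c, fun v hv => Module.End.mem_eigenspace_iff.mp hv.2⟩
        · obtain ⟨d, hd⟩ := h4 i hi
          exact ⟨d, fun v hv => hd v hv.1⟩
  obtain ⟨W', h1, h2, -, h4⟩ := key Finset.univ
  obtain ⟨v, hv, hv0⟩ := Submodule.exists_mem_ne_zero_of_ne_bot h2
  choose χ hχ using fun i => h4 i (Finset.mem_univ i)
  exact ⟨v, h1 hv, hv0, χ, fun i => hχ i v hv⟩

theorem genval (T : Module.End ℂ Z) (ν μ : ℂ) (v : Z) (hv : v ≠ 0) (h : T v = ν • v)
    (hm : v ∈ T.maxGenEigenspace μ) : ν = μ := by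
  obtain ⟨k, hk⟩ := (Module.End.mem_maxGenEigenspace T μ v).mp hm
  have h1 : ∀ k : ℕ, ((T - μ • (1 : Module.End ℂ Z)) ^ k) v = (ν - μ) ^ k • v := by
    intro k
    induction k with
    | zero => simp
    | succ k ih =>
      rw [pow_succ', Module.End.mul_apply, ih, map_smul, LinearMap.sub_apply, h,
        LinearMap.smul_apply, Module.End.one_apply, ← sub_smul, smul_smul, pow_succ]
  rw [h1] at hk
  rcases smul_eq_zero.mp hk with h2 | h2
  · exact sub_eq_zero.mp (pow_eq_zero_iff_of_ne_zero_aux h2)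
  · exact absurd h2 hv
where
  pow_eq_zero_iff_of_ne_zero_aux {x : ℂ} {k : ℕ} (h : x ^ k = 0) : x = 0 :=
    pow_eq_zero_iff'.mp h |>.1

theorem le_gen [FiniteDimensional ℂ Z] {κ : Type} [Fintype κ] (f : κ → Module.End ℂ Z)
    (hc : ∀ i j, Commute (f i) (f j)) (W : Submodule ℂ Z)
    (hinv : ∀ i, ∀ v ∈ W, f i v ∈ W) (i₀ : κ)
    (h : ∀ v ∈ W, v ≠ 0 → ∀ χ : κ → ℂ, (∀ i, f i v = χ i • v) → χ i₀ = 1) :
    W ≤ (f i₀).maxGenEigenspace 1 := by
  have h1 := Submodule.eq_iSup_inf_genEigenspace (p := W) (f := f i₀) ⊤ (hinv i₀)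
    (Module.End.iSup_maxGenEigenspace_eq_top (f i₀))
  rw [h1]
  refine iSup_le fun μ => ?_
  by_cases hμ : μ = 1
  · subst hμ
    exact inf_le_right
  · have h2 : W ⊓ (f i₀).maxGenEigenspace μ = ⊥ := by
      by_contra h3
      obtain ⟨v, hv, hv0, χ, hχ⟩ := joint f hc _ h3 (fun i v hv =>
        ⟨hinv i v hv.1, Module.End.mapsTo_maxGenEigenspace_of_comm (hc i₀ i) μ hv.2⟩)
      exact hμ ((genval _ _ _ v hv0 (hχ i₀) hv.2).symm.trans (h v hv.1 hv0 χ hχ))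
    exact h2.le.trans bot_le

theorem map_gen (T T' : Module.End ℂ Z) (g : Z ≃ₗ[ℂ] Z) (h : ∀ v, T' (g v) = g (T v)) (μ : ℂ) :
    (T.maxGenEigenspace μ).map (g : Z →ₗ[ℂ] Z) ≤ T'.maxGenEigenspace μ := by
  rintro _ ⟨v, hv, rfl⟩
  obtain ⟨k, hk⟩ := (Module.End.mem_maxGenEigenspace T μ v).mp hv
  refine (Module.End.mem_maxGenEigenspace T' μ _).mpr ⟨k, ?_⟩
  have h1 : ∀ k : ℕ, ((T' - μ • (1 : Module.End ℂ Z)) ^ k) (g v) =
      g (((T - μ • (1 : Module.End ℂ Z)) ^ k) v) := by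
    intro k
    induction k with
    | zero => simp
    | succ k ih =>
      rw [pow_succ', pow_succ', Module.End.mul_apply, Module.End.mul_apply, ih]
      simp [h]
  have h2 := h1 k
  rw [hk, map_zero] at h2
  exact h2

end Lin

theorem ex {ι : Type} [Fintype ι] [DecidableEq ι] (l : List ι) (h : l.length < Fintype.card ι) :
    ∃ x, x ∉ l := by
  by_contra h1
  push Not at h1
  have h2 : l.toFinset = Finset.univ := by
    ext x
    simp [h1 x]
  have h3 := List.toFinset_card_le l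
  rw [h2, Finset.card_univ] at h3
  omega

section
variable {ι Z : Type} [Fintype ι] [DecidableEq ι] [AddCommGroup Z] [Module ℂ Z]
  (N : NS ι (Z ≃ₗ[ℂ] Z)) (b : ι)

/-- joint eigenvectors. -/
def IsW (r l : ι → ℂ) (v : Z) : Prop :=
  ∀ e, e ≠ b → N.ρ e b v = r e • v ∧ N.lam e b v = l e • v

/-- the commuting family. -/
noncomputable def fam (p : {e // e ≠ b} × Bool) : Module.End ℂ Z :=
  if p.2 then (N.ρ p.1 b : Module.End ℂ Z) else (N.lam p.1 b : Module.End ℂ Z)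

omit [Fintype ι] in
theorem cm {u w : Z ≃ₗ[ℂ] Z} (h : Commute u w) (v : Z) : u (w v) = w (u v) := by
  have := congrArg (fun g : Z ≃ₗ[ℂ] Z => g v) h.eq
  simpa using this

omit [Fintype ι] in
theorem ρρ {e e' : ι} (he : e ≠ b) (he' : e' ≠ b) : Commute (N.ρ e b) (N.ρ e' b) := by
  by_cases h : e = e'
  · subst h; exact Commute.refl _
  · exact N.ρ_ρ e b e' b he he' h he he'

omit [Fintype ι] in
theorem ρl {e e' : ι} (he : e ≠ b) (he' : e' ≠ b) : Commute (N.ρ e b) (N.lam e' b) :=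
  N.ρ_lam e b e' b he he' he he'

omit [Fintype ι] in
theorem ll {e e' : ι} (he : e ≠ b) (he' : e' ≠ b) : Commute (N.lam e b) (N.lam e' b) := by
  by_cases h : e = e'
  · subst h; exact Commute.refl _
  · exact N.lam_lam e b e' b he he' h he he'

omit [Fintype ι] in
theorem fam_comm (p q : {e // e ≠ b} × Bool) : Commute (fam N b p) (fam N b q) := by
  obtain ⟨⟨e, he⟩, s⟩ := p
  obtain ⟨⟨e', he'⟩, s'⟩ := q
  ext v
  cases s <;> cases s' <;> simp only [fam, Module.End.mul_apply] <;> simp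
  · exact cm (ll N b he he') v
  · exact cm (ρl N b he' he).symm v
  · exact cm (ρl N b he he') v
  · exact cm (ρρ N b he he') v

omit [Fintype ι] in
theorem isW_of (χ : {e // e ≠ b} × Bool → ℂ) (v : Z) (h : ∀ i, fam N b i v = χ i • v) :
    IsW N b (fun e => if h : e ≠ b then χ (⟨e, h⟩, true) else 0)
      (fun e => if h : e ≠ b then χ (⟨e, h⟩, false) else 0) v := by
  intro e he
  have h1 := h (⟨e, he⟩, true)
  have h2 := h (⟨e, he⟩, false)
  simp only [fam] at h1 h2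
  simp only [dif_pos he]
  exact ⟨by simpa using h1, by simpa using h2⟩

omit [Fintype ι] in
theorem fam_inv (W : Submodule ℂ Z)
    (h : ∀ e, e ≠ b → ∀ v ∈ W, N.ρ e b v ∈ W ∧ N.lam e b v ∈ W) :
    ∀ i, ∀ v ∈ W, fam N b i v ∈ W := by
  rintro ⟨⟨e, he⟩, s⟩ v hv
  cases s
  · simpa [fam] using (h e he v hv).2
  · simpa [fam] using (h e he v hv).1

theorem jointW [FiniteDimensional ℂ Z] (W : Submodule ℂ Z) (hW : W ≠ ⊥)
    (h : ∀ e, e ≠ b → ∀ v ∈ W, N.ρ e b v ∈ W ∧ N.lam e b v ∈ W) :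
    ∃ v ∈ W, v ≠ 0 ∧ ∃ r l, IsW N b r l v := by
  obtain ⟨v, hv, hv0, χ, hχ⟩ := joint (fam N b) (fam_comm N b) W hW (fam_inv N b W h)
  exact ⟨v, hv, hv0, _, _, isW_of N b χ v hχ⟩

theorem le_genW [FiniteDimensional ℂ Z] (W : Submodule ℂ Z)
    (h : ∀ e, e ≠ b → ∀ v ∈ W, N.ρ e b v ∈ W ∧ N.lam e b v ∈ W) {a : ι} (ha : a ≠ b)
    (h1 : ∀ v ∈ W, v ≠ 0 → ∀ r l, IsW N b r l v → r a = 1) :
    W ≤ Module.End.maxGenEigenspace (N.ρ a b : Module.End ℂ Z) 1 := by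
  have := le_gen (fam N b) (fam_comm N b) W (fam_inv N b W h) (⟨a, ha⟩, true) (by
    intro v hv hv0 χ hχ
    have := h1 v hv hv0 _ _ (isW_of N b χ v hχ)
    simpa [dif_pos ha] using this)
  simpa [fam] using this

variable {N b}

omit [Fintype ι] in
theorem IsW.ne {r l : ι → ℂ} {v : Z} (h : IsW N b r l v) (hv : v ≠ 0) {e : ι} (he : e ≠ b) :
    r e ≠ 0 ∧ l e ≠ 0 := by
  constructor
  · intro h0
    have := (h e he).1
    rw [h0, zero_smul] at this
    exact hv ((N.ρ e b).map_eq_zero_iff.mp this)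
  · intro h0
    have := (h e he).2
    rw [h0, zero_smul] at this
    exact hv ((N.lam e b).map_eq_zero_iff.mp this)

omit [Fintype ι] [DecidableEq ι] in
theorem inv_eig (u : Z ≃ₗ[ℂ] Z) {c : ℂ} (hc : c ≠ 0) {v : Z} (h : u v = c • v) :
    u⁻¹ v = c⁻¹ • v := by
  apply u.injective
  have h1 : u (u⁻¹ v) = v := u.apply_symm_apply v
  rw [h1, map_smul, h, smul_smul, inv_mul_cancel₀ hc, one_smul]

omit [Fintype ι] in
theorem IsW.perm {r l : ι → ℂ} {v : Z} (h : IsW N b r l v) (σ : Perm ι) (hσ : σ b = b) :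
    IsW N b (fun e => r (σ.symm e)) (fun e => l (σ.symm e)) (N.π σ v) := by
  intro e he
  have he' : σ.symm e ≠ b := by
    intro h1
    apply he
    rw [← hσ, ← h1, Equiv.apply_symm_apply]
  have h1 := congrArg (fun g : Z ≃ₗ[ℂ] Z => g v) (N.π_ρ σ _ b he')
  have h2 := congrArg (fun g : Z ≃ₗ[ℂ] Z => g v) (N.π_lam σ _ b he')
  simp only [LinearEquiv.mul_apply, Equiv.apply_symm_apply, hσ] at h1 h2
  rw [← h1, ← h2, (h _ he').1, (h _ he').2, map_smul, map_smul]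
  exact ⟨rfl, rfl⟩

omit [Fintype ι] in
theorem εε (c : ι) (v : Z) : N.ε c (N.ε c v) = v := by
  have := congrArg (fun g : Z ≃ₗ[ℂ] Z => g v) (N.ε_sq c)
  simpa using this

omit [Fintype ι] in
theorem lam_eq {e : ι} (he : e ≠ b) : N.lam e b = N.ε e * (N.ρ e b)⁻¹ * N.ε e := by
  have h1 := N.ε_left e b he
  have h2 : (N.ε e)⁻¹ = N.ε e := inv_eq_of_mul_eq_one_right (N.ε_sq e)
  have h3 : N.lam e b = (N.ε e * N.ρ e b * N.ε e)⁻¹ := by rw [h1, inv_inv]
  rw [h3, mul_inv_rev, mul_inv_rev, h2, mul_assoc]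

omit [Fintype ι] in
theorem IsW.sgn {r l : ι → ℂ} {v : Z} (h : IsW N b r l v) (hv : v ≠ 0) {c : ι} (hc : c ≠ b) :
    IsW N b (Function.update r c (l c)⁻¹) (Function.update l c (r c)⁻¹) (N.ε c v) := by
  intro e he
  by_cases hec : e = c
  · subst hec
    simp only [Function.update_self]
    constructor
    · have h1 := congrArg (fun g : Z ≃ₗ[ℂ] Z => N.ε e (g v)) (N.ε_left e b he)
      simp only [LinearEquiv.mul_apply, εε] at h1
      rw [h1, inv_eig _ (h.ne hv he).2 (h e he).2, map_smul]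
    · rw [lam_eq he]
      simp only [LinearEquiv.mul_apply, εε]
      rw [inv_eig _ (h.ne hv he).1 (h e he).1, map_smul]
  · simp only [Function.update_of_ne hec]
    have h1 : Commute (N.ε c) (N.ρ e b) := N.ε_other e b c he (Ne.symm hec) hc
    have h2 : Commute (N.ε c) (N.lam e b) := by
      rw [lam_eq he]
      have h3 : Commute (N.ε c) (N.ε e) := N.ε_comm c e
      exact (h3.mul_right h1.inv_right).mul_right h3
    rw [← cm h1, ← cm h2, (h e he).1, (h e he).2, map_smul, map_smul]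
    exact ⟨rfl, rfl⟩

omit [Fintype ι] in
theorem kill {r r₁ r₂ r₃ l l₁ l₂ l₃ : ι → ℂ} {v v₁ v₂ v₃ : Z} (h : IsW N b r l v)
    (h₁ : IsW N b r₁ l₁ v₁) (h₂ : IsW N b r₂ l₂ v₂) (h₃ : IsW N b r₃ l₃ v₃)
    {e₁ e₂ e₃ : ι} (he₁ : e₁ ≠ b) (he₂ : e₂ ≠ b) (he₃ : e₃ ≠ b) (d₁ : r e₁ ≠ r₁ e₁)
    (d₂ : r e₂ ≠ r₂ e₂) (d₃ : r e₃ ≠ r₃ e₃) (h0 : v - v₁ - (v₂ - v₃) = 0) : v = 0 := by
  have step : ∀ (e : ι) (μ : ℂ), e ≠ b → ∀ c c₁ c₂ c₃ : ℂ,
      c • v - c₁ • v₁ - (c₂ • v₂ - c₃ • v₃) = 0 →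
      (c * (r e - μ)) • v - (c₁ * (r₁ e - μ)) • v₁ -
        ((c₂ * (r₂ e - μ)) • v₂ - (c₃ * (r₃ e - μ)) • v₃) = 0 := by
    intro e μ he c c₁ c₂ c₃ h1
    have h2 := congrArg (N.ρ e b) h1
    simp only [map_sub, map_smul, map_zero, (h e he).1, (h₁ e he).1, (h₂ e he).1,
      (h₃ e he).1] at h2
    have h3 := congrArg (fun x => μ • x) h1
    simp only [smul_zero] at h3
    rw [← sub_zero (0 : Z)]
    nth_rewrite 1 [← h2]
    rw [← h3]
    module
  have s0 : (1 : ℂ) • v - (1 : ℂ) • v₁ - ((1 : ℂ) • v₂ - (1 : ℂ) • v₃) = 0 := by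
    simpa using h0
  have s3 := step e₃ (r₃ e₃) he₃ _ _ _ _ (step e₂ (r₂ e₂) he₂ _ _ _ _
    (step e₁ (r₁ e₁) he₁ _ _ _ _ s0))
  simp only [sub_self, mul_zero, zero_mul, zero_smul, sub_zero, one_mul] at s3
  rcases smul_eq_zero.mp s3 with h4 | h4
  · exact absurd h4 (mul_ne_zero (mul_ne_zero (sub_ne_zero.mpr d₁) (sub_ne_zero.mpr d₂))
      (sub_ne_zero.mpr d₃))
  · exact h4

omit [Fintype ι] in
theorem cyc_fix {a a' x z : ι} (h1 : z ≠ a) (h2 : z ≠ a') (h3 : z ≠ x) :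
    (swap a x * swap a a' : Perm ι) z = z := by
  simp [swap_apply_of_ne_of_ne, h1, h2, h3]

omit [Fintype ι] in
theorem cyc_app {a a' x : ι} (h1 : a ≠ a') (h2 : x ≠ a') :
    (swap a x * swap a a' : Perm ι).symm a' = a := by
  rw [Equiv.symm_apply_eq]
  simp [swap_apply_of_ne_of_ne, h1.symm, h2.symm]

theorem cyc_sign {a a' x : ι} (h1 : a ≠ a') (h2 : a ≠ x) :
    Perm.sign (swap a x * swap a a' : Perm ι) = 1 := by
  simp [h1, h2]

theorem claimA (hn : 12 ≤ Fintype.card ι)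
    (hP : ∀ σ τ : Perm ι, Perm.sign σ = 1 → Perm.sign τ = 1 → Perm.Disjoint σ τ → ∀ z,
      z - N.π σ z - N.π τ (z - N.π σ z) = 0)
    {r l : ι → ℂ} {v : Z} (h : IsW N b r l v) (hv : v ≠ 0) {a a' c c' : ι} (ha : a ≠ b)
    (ha' : a' ≠ b) (hc : c ≠ b) (hc' : c' ≠ b) (h1 : a ≠ a') (h2 : a ≠ c) (h3 : a ≠ c')
    (h4 : a' ≠ c) (h5 : a' ≠ c') (h6 : c ≠ c') : r a = r a' ∨ r c = r c' := by
  by_contra hcon
  push Not at hcon
  obtain ⟨x, hx⟩ := ex [a, a', c, c', b] (by simp; omega)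
  obtain ⟨y, hy⟩ := ex [a, a', c, c', b, x] (by simp; omega)
  simp only [List.mem_cons, List.not_mem_nil, or_false, not_or] at hx hy
  obtain ⟨x1, x2, x3, x4, x5⟩ := hx
  obtain ⟨y1, y2, y3, y4, y5, y6⟩ := hy
  have hσ : (swap a x * swap a a' : Perm ι) b = b := cyc_fix ha.symm ha'.symm (Ne.symm x5)
  have hτ : (swap c y * swap c c' : Perm ι) b = b := cyc_fix hc.symm hc'.symm (Ne.symm y5)
  have hd : Perm.Disjoint (swap a x * swap a a' : Perm ι) (swap c y * swap c c') := by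
    intro z
    by_cases z1 : z = a
    · subst z1; exact Or.inr (cyc_fix h2 h3 (Ne.symm y1))
    by_cases z2 : z = a'
    · subst z2; exact Or.inr (cyc_fix h4 h5 (Ne.symm y2))
    by_cases z3 : z = x
    · subst z3; exact Or.inr (cyc_fix x3 x4 (Ne.symm y6))
    exact Or.inl (cyc_fix z1 z2 z3)
  have h0 := hP _ _ (cyc_sign h1 (Ne.symm x1)) (cyc_sign h6 (Ne.symm y3)) hd v
  rw [map_sub] at h0
  refine hv (kill h (h.perm _ hσ) (h.perm _ hτ) ((h.perm _ hσ).perm _ hτ) ha' hc' ha' ?_ ?_ ?_ h0)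
  · simp only [cyc_app h1 x2]
    exact hcon.1.symm
  · simp only [cyc_app h6 y4]
    exact hcon.2.symm
  · have h7 : (swap c y * swap c c' : Perm ι).symm a' = a' := by
      rw [Equiv.symm_apply_eq]
      exact (cyc_fix h4 h5 (Ne.symm y2)).symm
    simp only [h7, cyc_app h1 x2]
    exact hcon.1.symm

omit [Fintype ι] in
theorem Ea_app {d : ι} {z : Z} (hz : z ∈ Ea N.toWS d) {f : ι} (hf : f ≠ d) :
    N.ε d (N.ε f z) = -z := by
  simp only [Ea, Submodule.mem_iInf, LinearMap.mem_ker] at hz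
  have := hz f hf
  simpa [add_eq_zero_iff_eq_neg] using this

omit [Fintype ι] in
theorem Ea_fix {d : ι} {z : Z} (hz : z ∈ Ea N.toWS d) {f f' : ι} (hf : f ≠ d) (hf' : f' ≠ d) :
    N.ε f (N.ε f' z) = z := by
  have h1 := Ea_app hz hf
  have h2 := Ea_app hz hf'
  have h3 : N.ε f z = N.ε f' z := (N.ε d).injective (h1.trans h2.symm)
  rw [← h3, εε]

theorem deg_id (hD : Deg1 N.toWS) {a a' c c' : ι} (h2 : a ≠ c) (h3 : a ≠ c')
    (h4 : a' ≠ c) (h5 : a' ≠ c') (z : Z) :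
    z - N.ε a (N.ε a' z) - (N.ε c (N.ε c' z) - N.ε c (N.ε c' (N.ε a (N.ε a' z)))) = 0 := by
  let T : Module.End ℂ Z := (1 - (N.ε c * N.ε c' : Z ≃ₗ[ℂ] Z).toLinearMap) *
    (1 - (N.ε a * N.ε a' : Z ≃ₗ[ℂ] Z).toLinearMap)
  have hT : ∀ z, T z =
      z - N.ε a (N.ε a' z) - (N.ε c (N.ε c' z) - N.ε c (N.ε c' (N.ε a (N.ε a' z)))) := by
    intro z
    simp [T]
  have h : (⊤ : Submodule ℂ Z) ≤ LinearMap.ker T := by
    rw [← hD.1]
    refine sup_le ?_ (iSup_le fun d => ?_)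
    · intro z hz
      simp only [E0, Submodule.mem_iInf, LinearMap.mem_ker] at hz
      have h6 : N.ε a (N.ε a' z) = z := by simpa [sub_eq_zero] using hz a a'
      rw [LinearMap.mem_ker, hT, h6]
      simp
    · intro z hz
      rw [LinearMap.mem_ker, hT]
      by_cases hd : a ≠ d ∧ a' ≠ d
      · rw [Ea_fix hz hd.1 hd.2]
        simp
      · have hc : c ≠ d ∧ c' ≠ d := by
          constructor
          · rintro rfl; exact hd ⟨h2, h4⟩
          · rintro rfl; exact hd ⟨h3, h5⟩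
        have e1 : ∀ p q : ι, Commute (N.ε p) (N.ε q) := N.ε_comm
        rw [cm (e1 c' a), cm (e1 c' a'), cm (e1 c a), cm (e1 c a'), Ea_fix hz hc.1 hc.2]
        simp
  rw [← hT]
  exact h Submodule.mem_top

theorem claimB (hn : 12 ≤ Fintype.card ι) (hD : Deg1 N.toWS)
    {r l : ι → ℂ} {v : Z} (h : IsW N b r l v) (hv : v ≠ 0) {a c : ι} (ha : a ≠ b)
    (hc : c ≠ b) (h2 : a ≠ c) : r a * l a = 1 ∨ r c * l c = 1 := by
  by_contra hcon
  push Not at hcon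
  obtain ⟨x, hx⟩ := ex [a, c, b] (by simp; omega)
  obtain ⟨y, hy⟩ := ex [a, c, b, x] (by simp; omega)
  simp only [List.mem_cons, List.not_mem_nil, or_false, not_or] at hx hy
  obtain ⟨x1, x2, x3⟩ := hx
  obtain ⟨y1, y2, y3, y4⟩ := hy
  have nz : ∀ (p : ι) {w : Z}, w ≠ 0 → N.ε p w ≠ 0 := fun p w hw h =>
    hw ((N.ε p).map_eq_zero_iff.mp h)
  have h0 := deg_id hD h2 (Ne.symm y1) x2 (Ne.symm y4) v
  have w1 := (h.sgn hv x3).sgn (nz _ hv) ha
  have w2 := (h.sgn hv y3).sgn (nz _ hv) hc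
  have w3 := (w1.sgn (nz _ (nz _ hv)) y3).sgn (nz _ (nz _ (nz _ hv))) hc
  have d1 : r a ≠ (l a)⁻¹ := fun e => hcon.1 (by rw [e, inv_mul_cancel₀ (h.ne hv ha).2])
  have d2 : r c ≠ (l c)⁻¹ := fun e => hcon.2 (by rw [e, inv_mul_cancel₀ (h.ne hv hc).2])
  refine hv (kill h w1 w2 w3 ha hc ha ?_ ?_ ?_ h0)
  · simpa [Function.update_of_ne (Ne.symm x1)] using d1
  · simpa [Function.update_of_ne (Ne.symm y2)] using d2
  · simpa [Function.update_of_ne (Ne.symm x1), Function.update_of_ne h2,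
      Function.update_of_ne (Ne.symm y1)] using d1

omit [Fintype ι] in
theorem conj_app {a c : ι} (ha : a ≠ b) (hc : c ≠ b) (h : c ≠ a) (v : Z) :
    N.lam c a (N.ρ a b v) = N.ρ a b ((N.lam c b)⁻¹ (N.lam c a v)) := by
  have h1 := congrArg (fun g : Z ≃ₗ[ℂ] Z => g (N.lam c a v)) (N.conj_lam a b c ha h hc)
  simp only [LinearEquiv.mul_apply] at h1
  have h2 : (N.lam c a)⁻¹ (N.lam c a v) = v := (N.lam c a).symm_apply_apply v
  rwa [h2] at h1

omit [Fintype ι] [DecidableEq ι] in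
theorem eig_uniq {c c' : ℂ} {v : Z} (hv : v ≠ 0) (h : c • v = c' • v) : c = c' :=
  smul_left_injective ℂ hv h

theorem step [FiniteDimensional ℂ Z] {r l : ι → ℂ} {v : Z} (h : IsW N b r l v) (hv : v ≠ 0)
    {a c : ι} (ha : a ≠ b) (hc : c ≠ b) (hca : c ≠ a) :
    ∃ (r' l' : ι → ℂ) (v' : Z), IsW N b r' l' v' ∧ v' ≠ 0 ∧ r' a = r a * (l c)⁻¹ ∧
      (∀ e, e ≠ b → e ≠ a → r' e = r e) ∧ ∀ e, e ≠ b → e ≠ a → e ≠ c → l' e = l e := by
  let W : Submodule ℂ Z :=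
    { carrier := {u | N.ρ a b u = (r a * (l c)⁻¹) • u ∧
        (∀ e, e ≠ b → e ≠ a → N.ρ e b u = r e • u) ∧
        ∀ e, e ≠ b → e ≠ a → e ≠ c → N.lam e b u = l e • u}
      add_mem' := by
        rintro u w ⟨u1, u2, u3⟩ ⟨w1, w2, w3⟩
        refine ⟨by rw [map_add, u1, w1, smul_add], fun e e1 e2 => ?_, fun e e1 e2 e3 => ?_⟩
        · rw [map_add, u2 e e1 e2, w2 e e1 e2, smul_add]
        · rw [map_add, u3 e e1 e2 e3, w3 e e1 e2 e3, smul_add]
      zero_mem' := by simp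
      smul_mem' := by
        rintro s u ⟨u1, u2, u3⟩
        refine ⟨by rw [map_smul, u1, smul_comm], fun e e1 e2 => ?_, fun e e1 e2 e3 => ?_⟩
        · rw [map_smul, u2 e e1 e2, smul_comm]
        · rw [map_smul, u3 e e1 e2 e3, smul_comm] }
  have hg : N.lam c a ((N.lam c a)⁻¹ v) = v := (N.lam c a).apply_symm_apply v
  have hu : (N.lam c a)⁻¹ v ∈ W := by
    refine ⟨?_, fun e e1 e2 => ?_, fun e e1 e2 e3 => ?_⟩
    · apply (N.lam c a).injective
      rw [conj_app ha hc hca, map_smul, hg, inv_eig _ (h.ne hv hc).2 (h c hc).2, map_smul,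
        (h a ha).1, smul_smul, mul_comm]
    · apply (N.lam c a).injective
      rw [← cm (N.ρ_lam e b c a e1 hca e2 hc), map_smul, hg, (h e e1).1]
    · apply (N.lam c a).injective
      rw [cm (N.lam_lam c a e b hca e1 (Ne.symm e3) hc e2), map_smul, hg, (h e e1).2]
  have hW : W ≠ ⊥ := by
    intro h0
    rw [h0, Submodule.mem_bot] at hu
    rw [hu, map_zero] at hg
    exact hv hg.symm
  obtain ⟨v', ⟨u1, u2, u3⟩, hv', r', l', h'⟩ := jointW N b W hW (by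
    rintro f hf u ⟨u1, u2, u3⟩
    refine ⟨⟨?_, fun e e1 e2 => ?_, fun e e1 e2 e3 => ?_⟩,
      ⟨?_, fun e e1 e2 => ?_, fun e e1 e2 e3 => ?_⟩⟩
    · rw [cm (ρρ N b ha hf), u1, map_smul]
    · rw [cm (ρρ N b e1 hf), u2 e e1 e2, map_smul]
    · rw [cm (ρl N b hf e1).symm, u3 e e1 e2 e3, map_smul]
    · rw [cm (ρl N b ha hf), u1, map_smul]
    · rw [cm (ρl N b e1 hf), u2 e e1 e2, map_smul]
    · rw [cm (ll N b e1 hf), u3 e e1 e2 e3, map_smul])
  exact ⟨r', l', v', h', hv', eig_uniq hv' ((h' a ha).1.symm.trans u1),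
    fun e e1 e2 => eig_uniq hv' ((h' e e1).1.symm.trans (u2 e e1 e2)),
    fun e e1 e2 e3 => eig_uniq hv' ((h' e e1).2.symm.trans (u3 e e1 e2 e3))⟩

theorem claimC [FiniteDimensional ℂ Z] (hn : 12 ≤ Fintype.card ι) (hD : Deg1 N.toWS)
    (hP : ∀ σ τ : Perm ι, Perm.sign σ = 1 → Perm.sign τ = 1 → Perm.Disjoint σ τ → ∀ z,
      z - N.π σ z - N.π τ (z - N.π σ z) = 0)
    {r l : ι → ℂ} {v : Z} (h : IsW N b r l v) (hv : v ≠ 0) {a a' : ι} (ha : a ≠ b)
    (ha' : a' ≠ b) (h1 : a ≠ a') : r a = 1 ∨ r a' = 1 := by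
  have good : ∃ c c', c ≠ a ∧ c ≠ a' ∧ c ≠ b ∧ c' ≠ a ∧ c' ≠ a' ∧ c' ≠ b ∧ c ≠ c' ∧
      r c * l c = 1 ∧ r c' * l c' = 1 := by
    obtain ⟨x, hx⟩ := ex [a, a', b] (by simp; omega)
    obtain ⟨y, hy⟩ := ex [a, a', b, x] (by simp; omega)
    obtain ⟨w, hw⟩ := ex [a, a', b, x, y] (by simp; omega)
    simp only [List.mem_cons, List.not_mem_nil, or_false, not_or] at hx hy hw
    obtain ⟨x1, x2, x3⟩ := hx
    obtain ⟨y1, y2, y3, y4⟩ := hy
    obtain ⟨w1, w2, w3, w4, w5⟩ := hw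
    rcases claimB hn hD h hv x3 y3 (Ne.symm y4) with p | p
    · rcases claimB hn hD h hv y3 w3 (Ne.symm w5) with q | q
      · exact ⟨x, y, x1, x2, x3, y1, y2, y3, Ne.symm y4, p, q⟩
      · exact ⟨x, w, x1, x2, x3, w1, w2, w3, Ne.symm w4, p, q⟩
    · rcases claimB hn hD h hv x3 w3 (Ne.symm w4) with q | q
      · exact ⟨x, y, x1, x2, x3, y1, y2, y3, Ne.symm y4, q, p⟩
      · exact ⟨y, w, y1, y2, y3, w1, w2, w3, Ne.symm w5, p, q⟩
  obtain ⟨c, c', c1, c2, c3, c4, c5, c6, c7, g1, g2⟩ := good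
  obtain ⟨r₁, l₁, v₁, k1, k2, k3, k4, k5⟩ := step h hv ha c3 c1
  obtain ⟨r₂, l₂, v₂, m1, m2, m3, m4, -⟩ := step k1 k2 ha' c6 c5
  have key : ∀ s t u : ℂ, t * u = 1 → s * u⁻¹ = t → s = 1 := by
    intro s t u e1 e2
    have hu : u ≠ 0 := right_ne_zero_of_mul_eq_one e1
    rw [← e1, ← e2, mul_assoc, inv_mul_cancel₀ hu, mul_one]
  rcases claimA hn hP m1 m2 ha c3 ha' c6 (Ne.symm c1) h1 (Ne.symm c4) c2 c7 (Ne.symm c5) with p | p
  · rw [m4 a ha h1, m4 c c3 c2, k3, k4 c c3 c1] at p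
    exact Or.inl (key _ _ _ g1 p)
  · rw [m3, m4 c' c6 c5, k4 a' ha' (Ne.symm h1), k4 c' c6 c4, k5 c' c6 c4 (Ne.symm c7)] at p
    exact Or.inr (key _ _ _ g2 p)

theorem claimC' [FiniteDimensional ℂ Z] (hn : 12 ≤ Fintype.card ι) (hD : Deg1 N.toWS)
    (hP : ∀ σ τ : Perm ι, Perm.sign σ = 1 → Perm.sign τ = 1 → Perm.Disjoint σ τ → ∀ z,
      z - N.π σ z - N.π τ (z - N.π σ z) = 0)
    {r l : ι → ℂ} {v : Z} (h : IsW N b r l v) (hv : v ≠ 0) {a c : ι} (ha : a ≠ b)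
    (hc : c ≠ b) (h1 : a ≠ c) : r a = 1 ∨ l c = 1 := by
  have := claimC hn hD hP (h.sgn hv hc) (fun h0 => hv ((N.ε c).map_eq_zero_iff.mp h0)) ha hc h1
  simpa [Function.update_of_ne h1] using this

theorem claimD [FiniteDimensional ℂ Z] (hn : 12 ≤ Fintype.card ι) (hD : Deg1 N.toWS)
    (hP : ∀ σ τ : Perm ι, Perm.sign σ = 1 → Perm.sign τ = 1 → Perm.Disjoint σ τ → ∀ z,
      z - N.π σ z - N.π τ (z - N.π σ z) = 0)
    {r l : ι → ℂ} {v : Z} (h : IsW N b r l v) (hv : v ≠ 0) {c : ι} (hc : c ≠ b) : l c = 1 := by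
  obtain ⟨a, hx⟩ := ex [c, b] (by simp; omega)
  simp only [List.mem_cons, List.not_mem_nil, or_false, not_or] at hx
  obtain ⟨hac, ha⟩ := hx
  let T : Module.End ℂ Z := (N.ρ a b : Module.End ℂ Z)
  let T' : Module.End ℂ Z := (N.ρ a b * (N.lam c b)⁻¹ : Z ≃ₗ[ℂ] Z).toLinearMap
  have hT' : ∀ {r l : ι → ℂ} {v : Z}, IsW N b r l v → v ≠ 0 → T' v = (r a * (l c)⁻¹) • v := by
    intro r l v h hv
    change N.ρ a b ((N.lam c b)⁻¹ v) = _
    rw [inv_eig _ (h.ne hv hc).2 (h c hc).2, map_smul, (h a ha).1, smul_smul, mul_comm]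
  have h1 := map_gen T T' (N.lam c a) (fun w => (conj_app ha hc (Ne.symm hac) w).symm) 1
  have cmE : ∀ {u w : Z ≃ₗ[ℂ] Z}, Commute u w →
      Commute (u.toLinearMap : Module.End ℂ Z) w.toLinearMap := by
    intro u w h
    ext x
    exact cm h x
  have h2 : T'.maxGenEigenspace 1 ≤ T.maxGenEigenspace 1 := by
    refine le_genW N b _ (fun e he w hw => ⟨?_, ?_⟩) ha ?_
    · exact Module.End.mapsTo_maxGenEigenspace_of_comm
        (cmE ((ρρ N b ha he).mul_left (ρl N b he hc).symm.inv_left)) 1 hw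
    · exact Module.End.mapsTo_maxGenEigenspace_of_comm
        (cmE ((ρl N b ha he).mul_left (ll N b hc he).inv_left)) 1 hw
    · intro w hw hw0 r' l' h'
      have h3 := genval _ _ _ w hw0 (hT' h' hw0) hw
      rcases claimC' hn hD hP h' hw0 ha hc hac with p | p
      · exact p
      · simpa [p] using h3
  have h3 : T'.maxGenEigenspace 1 = T.maxGenEigenspace 1 := by
    refine Submodule.eq_of_le_of_finrank_le h2 ?_
    rw [← LinearEquiv.finrank_map_eq (N.lam c a)]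
    exact Submodule.finrank_mono h1
  rcases claimC' hn hD hP h hv ha hc hac with p | p
  · have h4 : v ∈ T.maxGenEigenspace 1 := by
      refine (Module.End.mem_maxGenEigenspace T 1 v).mpr ⟨1, ?_⟩
      have h5 : T v = v := by
        change N.ρ a b v = v
        rw [(h a ha).1, p, one_smul]
      simp [h5]
    rw [← h3] at h4
    have h5 := genval _ _ _ v hv (hT' h hv) h4
    simpa [p] using h5
  · exact p

end

theorem sunip : SUnip := by
  intro ι Z _ _ _ _ _ N hn hD hP a b ha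
  have h := le_genW N b ⊤ (fun _ _ _ _ => ⟨trivial, trivial⟩) ha (by
    intro v _ hv r l h
    have := claimD hn hD hP (h.sgn hv ha) (fun h0 => hv ((N.ε a).map_eq_zero_iff.mp h0)) ha
    simpa using this)
  refine Module.End.isNilpotent_iff_of_finite.mpr fun v => ?_
  simpa using (Module.End.mem_maxGenEigenspace _ 1 v).mp (h Submodule.mem_top)

end Pool.Agent.MP_3ce0a0_al.H19
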