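import Pool.Agent.MP_3ce0a0_al.H79.Y3B
import Pool.Agent.MP_3ce0a0_al.H44.XGeo
import Pool.Agent.MP_3ce0a0_al.H81.XGeoL
import Pool.Agent.MP_3ce0a0_al.H5.XGeoK

/-
Cycles of fixed subgraphs.
-/

namespace Pool.Agent.MP_3ce0a0_al.H79.Y

open Equiv Module Finset Pool.Agent.MP_3ce0a0_al.H79.X Pool.Agent.MP_3ce0a0_al.H79.X.GK

namespace H19

variable {O H : Type} [Group O] [AddCommGroup H] [Module ℂ H] {π : O →* End ℂ H}

lemma conj_Φt (G : Geo π) (y g : O) : ∀ v ∈ G.Φt g, π y v ∈ G.Φt (y * g * y⁻¹) := by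
  intro v hv
  refine (show G.Φt g ≤ (G.Φt (y * g * y⁻¹)).comap (π y) from ?_) hv
  refine iSup_le fun ω => iSup_le fun hω h hh => ?_
  exact Submodule.mem_iSup_of_mem (G.act y ω)
    (Submodule.mem_iSup_of_mem (by rw [G.ov_act, hω]) (G.Φ_act y ω h hh))

lemma cnt_Φt [FiniteDimensional ℂ H] (G : Geo π) (g : O) (k : ℕ) (hg : IsOfFinOrder g)
    (hk : 2 ≤ k) (ht : LinearMap.trace ℂ H (π g) = k) : k ≤ finrank ℂ (G.Φt g) := by
  obtain ⟨h1, h2⟩ := H81.sgeoL H O π G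
  have key := h2 g 1 (orderOf g) 1 hg.orderOf_pos one_pos (Nat.coprime_one_right _)
    (pow_orderOf_eq_one g) (one_pow 1) (Commute.one_right g)
  rw [trOn_id (fun v _ => by rw [map_one]; rfl), one_mul, ht] at key
  have key' : finrank ℂ (G.Φt g) + 1 = k + G.fx g 1 := by
    have : ((finrank ℂ (G.Φt g) + 1 : ℕ) : ℂ) = ((k + G.fx g 1 : ℕ) : ℂ) := by
      push_cast
      linear_combination key
    exact_mod_cast this
  by_cases h0 : ∃ ω, G.ov ω = g
  · obtain ⟨ω, hω⟩ := h0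
    have hf : Finite {ω // G.ov ω = g} := (h1 g hg).1
    have hf' : Finite {ω // G.ov ω = g ∧ G.act 1 ω = ω} :=
      Finite.of_injective (fun x => (⟨x.1, x.2.1⟩ : {ω // G.ov ω = g}))
        fun a b h => Subtype.ext (congrArg (fun x : {ω // G.ov ω = g} => x.1) h)
    have hn : Nonempty {ω // G.ov ω = g ∧ G.act 1 ω = ω} := ⟨⟨ω, hω, by rw [map_one]; rfl⟩⟩
    have : 0 < G.fx g 1 := Nat.card_pos
    omega
  · have hb : G.Φt g = ⊥ :=
      eq_bot_iff.2 (iSup_le fun ω => iSup_le fun hω => (h0 ⟨ω, hω⟩).elim)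
    rw [hb, finrank_bot] at key'
    omega

lemma edge_Φt (G : Geo π) (K : Subgroup O) (hK : Finite K) :
    ∃ (E : Type) (_ : MulAction K E) (j : H →ₗ[ℂ] (E → ℂ)), Function.Injective j ∧
      (∀ (g : K) v e, j (π g v) (g • e) = j v e) ∧ ∀ g : K, G.Φt g = Fx j g := by
  classical
  obtain ⟨V, E, _, _, _, _, o, t, j, q, ho, ht, -, -, -, hj, hc, hμ, -, q1, -, q3, -, q5⟩ :=
    G.real K hK
  refine ⟨E, inferInstance, j, hj, hμ, fun a => le_antisymm ?_ fun v hv' => ?_⟩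
  · refine iSup_le fun ω => iSup_le fun hω h hh e he => ?_
    by_contra k
    exact he ((q5 a ω hω h).1 hh e k).1
  · have hv : ∀ e, j v e ≠ 0 → a • e = e := fun e he => by
      by_contra k
      exact he (hv' e k)
    have hot : ∀ e, j v e ≠ 0 → q a (o e) = q a (t e) := fun e he =>
      (q3 a _ _ (by rw [← ho, hv e he]) (by rw [← ht, hv e he])).2
        (Relation.ReflTransGen.single ⟨e, hv e he, Or.inl ⟨rfl, rfl⟩⟩)
    choose w hw using fun ω => (hc _).2 (cyc_cut (q a) ((hc _).1 ⟨v, rfl⟩) hot ω)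
    have hs : v = ∑ ω ∈ (univ.filter fun e => a • e = e).image fun e => q a (o e), w ω := by
      refine hj (funext fun e => ?_)
      rw [map_sum, Finset.sum_apply]
      simp only [hw]
      by_cases he : j v e = 0
      · simp [he]
      · rw [Finset.sum_eq_single (q a (o e)) (fun b _ hb => if_neg (Ne.symm hb))
          (fun h => (h (Finset.mem_image.2 ⟨e, by simpa using hv e he, rfl⟩)).elim), if_pos rfl]
    rw [hs]
    refine Submodule.sum_mem _ fun ω hω => ?_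
    obtain ⟨e, he, rfl⟩ := Finset.mem_image.1 hω
    have h1 := q1 a (o e) (by rw [← ho, (Finset.mem_filter.1 he).2])
    refine Submodule.mem_iSup_of_mem _ (Submodule.mem_iSup_of_mem h1 ?_)
    refine (q5 a _ h1 _).2 fun e' he' => ?_
    rw [hw] at he'
    obtain ⟨b, c⟩ := ite_ne_right_iff.1 he'
    exact ⟨hv e' c, b⟩

end H19

theorem sed : SEd := by
  intro m hm
  obtain ⟨π, ⟨G⟩⟩ := H44.sgeo m hm
  exact ⟨π, G.Φt, H19.conj_Φt G, H19.cnt_Φt G, H19.edge_Φt G,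
    (sgeoK H81.sgeoL (HV m) _ π G).2.2 (by simpa using hm)⟩

end Pool.Agent.MP_3ce0a0_al.H79.Y
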